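import Pool.Agent.H992.PM.Defs

/-!
# PM/X: other weights (helper233 for helper992)
-/

set_option autoImplicit false
open MeasureTheory Filter Topology Complex ProbabilityTheory
open scoped ContDiff ENNReal

namespace Pool.Agent.H233.PM

open Pool.Agent.W745.RW (TF)
open Pool.Agent.N661.BR (MW IsRandomWave)
open Pool.Agent.N814.BHM (P mass)
open Pool.Agent.N814.BHASM (Hyp)
open Pool.Agent.H992.LB (eγ eX SX SX_meas rw_stat rw_erg)
open Pool.Agent.H992.SF (s_abs s_linv)
open Pool.Agent.H289.SF (sA sA_eX)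
open Pool.Agent.H992.PM

theorem px : S_PX := by
  intro Ω lam u H γ hγP hγ ψ hψ h0 hW χ hχ hK
  obtain ⟨K, hK⟩ := hK
  have hP : IsProbabilityMeasure (P Ω) := Pool.Agent.N814.BHASM.probP H
  -- measurability and boundedness
  have hψm : Measurable fun p : ℂ × (ℝ × Bool) => ψ p.1 :=
    hψ.1.continuous.measurable.comp measurable_fst
  have hχm : Measurable fun p : ℂ × (ℝ × Bool) => χ p.1 :=
    hχ.1.continuous.measurable.comp measurable_fst
  obtain ⟨C, hC⟩ := hψ.1.continuous.bounded_above_of_compact_support hψ.2.1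
  have hψi : Integrable (fun p : ℂ × (ℝ × Bool) => ψ p.1) (P Ω) :=
    Integrable.of_bound hψm.aestronglyMeasurable C (Eventually.of_forall fun p => hC _)
  have hχ0 : ∀ z, ψ z = 0 → χ z = 0 := by
    intro z hz
    have h1 := hK z
    rw [hz, mul_zero] at h1
    exact abs_eq_zero.1 (le_antisymm h1 (abs_nonneg _))
  set m₀ : ℝ := ∫ p, ψ p.1 ∂(P Ω) with hm₀
  have hm₀nn : 0 ≤ m₀ := integral_nonneg fun p => h0 _
  rcases hm₀nn.eq_or_lt with hz | hpos
  · -- the trivial case
    have hae : ∀ᵐ p ∂(P Ω), ψ p.1 = 0 := by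
      have h1 := (integral_eq_zero_iff_of_nonneg (fun p => h0 _) hψi).1 hz.symm
      filter_upwards [h1] with p hp
      exact hp
    have haeχ : ∀ᵐ p ∂(P Ω), χ p.1 = 0 := by
      filter_upwards [hae] with p hp
      exact hχ0 _ hp
    intro τ
    have e1 : ∀ n, ∫ p, (χ p.1 : ℂ) * eX (lam n) (u n) τ p ∂(P Ω) = 0 := by
      intro n
      rw [integral_congr_ae (g := fun _ => (0 : ℂ))]
      · simp
      · filter_upwards [haeχ] with p hp
        rw [hp, Complex.ofReal_zero, zero_mul]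
    have e2 : ∫ p, (χ p.1 : ℂ) ∂(P Ω) = 0 := by
      rw [integral_congr_ae (g := fun _ => (0 : ℂ))]
      · simp
      · filter_upwards [haeχ] with p hp
        rw [hp, Complex.ofReal_zero]
    simp_rw [e1, e2, mul_zero]
    exact tendsto_const_nhds
  · -- the weighted probability measure
    set d : ℂ × (ℝ × Bool) → NNReal := fun p => Real.toNNReal (ψ p.1 / m₀) with hd
    have hdm : Measurable d := (hψm.div_const m₀).real_toNNReal
    set Q : Measure (ℂ × (ℝ × Bool)) := (P Ω).withDensity (fun p => (d p : ℝ≥0∞)) with hQ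
    have hdv : ∀ p, ((d p : NNReal) : ℝ) = ψ p.1 / m₀ := fun p =>
      Real.coe_toNNReal _ (div_nonneg (h0 _) hm₀nn)
    have hQp : IsProbabilityMeasure Q := by
      constructor
      rw [hQ, withDensity_apply _ MeasurableSet.univ, Measure.restrict_univ]
      have h1 : ∫⁻ p, (d p : ℝ≥0∞) ∂(P Ω) = ENNReal.ofReal (∫ p, ψ p.1 / m₀ ∂(P Ω)) := by
        rw [ofReal_integral_eq_lintegral_ofReal (hψi.div_const m₀)
          (Eventually.of_forall fun p => div_nonneg (h0 _) hm₀nn)]
        rfl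
      rw [h1, integral_div, ← hm₀, div_self hpos.ne', ENNReal.ofReal_one]
    have hQi : ∀ g : ℂ × (ℝ × Bool) → ℂ, ∫ p, g p ∂Q = (m₀ : ℂ)⁻¹ * ∫ p, (ψ p.1 : ℂ) * g p ∂(P Ω) := by
      intro g
      rw [hQ, integral_withDensity_eq_integral_smul hdm, ← integral_const_mul]
      refine integral_congr_ae (Eventually.of_forall fun p => ?_)
      show (d p) • g p = _
      rw [NNReal.smul_def, hdv, Complex.real_smul]
      push_cast
      field_simp
    set B : ℂ × (ℝ × Bool) → ℂ := fun p => ((χ p.1 / ψ p.1 : ℝ) : ℂ) with hB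
    have hBm : Measurable B := Complex.measurable_ofReal.comp (hχm.div hψm)
    have hψB : ∀ p, (ψ p.1 : ℂ) * B p = (χ p.1 : ℂ) := by
      intro p
      rw [hB]
      simp only
      by_cases hz : ψ p.1 = 0
      · rw [hz, hχ0 _ hz]
        simp
      · rw [← Complex.ofReal_mul, mul_div_cancel₀ _ hz]
    have hBb : ∃ C : ℝ, ∀ (n : ℕ) z, ‖(fun _ : ℕ => B) n z‖ ≤ C := by
      refine ⟨|K|, fun n p => ?_⟩
      rw [hB]
      simp only
      rw [Complex.norm_real, Real.norm_eq_abs]
      by_cases hz : ψ p.1 = 0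
      · rw [hz, div_zero, abs_zero]
        exact abs_nonneg _
      · have hp : 0 < ψ p.1 := lt_of_le_of_ne (h0 _) (Ne.symm hz)
        rw [abs_div, abs_of_pos hp, div_le_iff₀ hp]
        exact (hK _).trans (mul_le_mul_of_nonneg_right (le_abs_self K) hp.le)
    have hmc : (m₀ : ℂ) ≠ 0 := by exact_mod_cast hpos.ne'
    have hmc2 : (∫ p, (ψ p.1 : ℂ) ∂(P Ω)) = (m₀ : ℂ) := by
      rw [hm₀, ← integral_complex_ofReal]
    intro τ
    have hA := s_abs (ℂ × (ℝ × Bool)) inferInstance Q hQp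
      (fun n p => sA (lam n) (u n) p)
      (fun n τ => Complex.measurable_re.comp (SX_meas (H.sm n) τ)) (fun _ => B) (fun _ => hBm) hBb
      γ hγP (rw_stat hγ) (rw_erg hγ) ?_ ?_ τ
    · have hA2 := hA.const_mul (m₀ : ℂ)
      rw [mul_zero] at hA2
      have hA3 := hA2.add_const ((∫ f, eγ τ f ∂γ) * ∫ p, (χ p.1 : ℂ) ∂(P Ω))
      rw [zero_add] at hA3
      refine hA3.congr fun n => ?_
      simp only [hQi, hψB]
      have e3 : ∀ p, (ψ p.1 : ℂ) * (Complex.exp (I * ((sA (lam n) (u n) p τ : ℝ) : ℂ)) * B p) =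
          (χ p.1 : ℂ) * eX (lam n) (u n) τ p := by
        intro p
        rw [sA_eX, ← hψB p]
        ring
      simp_rw [e3]
      field_simp
      ring
    · intro τ'
      have h1 := (hW τ').const_mul (m₀ : ℂ)⁻¹
      rw [hmc2] at h1
      have h2 : (m₀ : ℂ)⁻¹ * ((∫ f, eγ τ' f ∂γ) * (m₀ : ℂ)) = ∫ f, eγ τ' f ∂γ := by
        field_simp
      rw [h2] at h1
      refine h1.congr fun n => ?_
      rw [hQi]
      rfl
    · intro τ' x
      have h1 := (s_linv 1 Ω (fun _ => lam) (fun _ => u) (fun _ => H) 0 ∅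
        (fun i hi => absurd hi (Finset.notMem_empty i)) χ hχ τ' x 0 (fun _ => Fin.elim0)
        (fun _ => Fin.elim0)).const_mul (m₀ : ℂ)⁻¹
      rw [mul_zero] at h1
      refine h1.congr fun n => ?_
      rw [hQi]
      congr 1
      refine integral_congr_ae (Eventually.of_forall fun p => ?_)
      show _ = (ψ p.1 : ℂ) * ((Complex.exp (I * ((sA (lam n) (u n) p (τ'.mapDomain (· + x)) : ℝ) : ℂ))
        - Complex.exp (I * ((sA (lam n) (u n) p τ' : ℝ) : ℂ))) * B p)
      rw [sA_eX, sA_eX]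
      simp only [Finset.prod_empty, mul_one]
      rw [← hψB p]
      ring

end Pool.Agent.H233.PM
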